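import Pool.Agent.helper47.CL.SpecD

set_option autoImplicit false

namespace Pool.Agent.helper41.CL

open Finset

theorem MA_mem_ind {α : Type} [DecidableEq α] {V : Finset α} {E : Finset (Finset α)} {k : ℕ}
    {I : Finset α} : I ∈ ind V E k ↔ (I ⊆ V ∧ I.card = k) ∧ ∀ e ∈ E, ¬ e ⊆ I := by
  unfold ind
  rw [Finset.mem_filter, Finset.mem_powersetCard]

theorem MA_mem_ext {α : Type} [DecidableEq α] {V : Finset α} {E : Finset (Finset α)}
    {J : Finset α} {v : α} : v ∈ ext V E J ↔ v ∈ V ∧ v ∉ J ∧ ∀ e ∈ E, ¬ e ⊆ insert v J := by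
  unfold ext
  rw [Finset.mem_filter]

theorem MA : MA_stmt := by
  intro α _ V E s
  have h1 : (s + 1) * (ind V E (s + 1)).card = ∑ I ∈ ind V E (s + 1), I.card := by
    rw [Finset.sum_const_nat (m := s + 1) (fun I hI => (MA_mem_ind.mp hI).1.2), mul_comm]
  rw [h1, ← Finset.card_sigma, ← Finset.card_sigma]
  refine Finset.card_bij' (fun p _ => ⟨insert p.2 p.1, p.2⟩)
    (fun p _ => ⟨p.1.erase p.2, p.2⟩) ?_ ?_ ?_ ?_
  · intro p hp
    rw [Finset.mem_sigma] at hp
    obtain ⟨hp1, hp2⟩ := hp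
    rw [MA_mem_ind] at hp1
    rw [MA_mem_ext] at hp2
    rw [Finset.mem_sigma]
    refine ⟨MA_mem_ind.mpr ⟨⟨?_, ?_⟩, hp2.2.2⟩, Finset.mem_insert_self _ _⟩
    · exact Finset.insert_subset hp2.1 hp1.1.1
    · rw [Finset.card_insert_of_notMem hp2.2.1, hp1.1.2]
  · intro p hp
    rw [Finset.mem_sigma] at hp
    obtain ⟨hp1, hp2⟩ := hp
    rw [MA_mem_ind] at hp1
    rw [Finset.mem_sigma]
    refine ⟨MA_mem_ind.mpr ⟨⟨?_, ?_⟩, ?_⟩, MA_mem_ext.mpr ⟨hp1.1.1 hp2, Finset.notMem_erase _ _, ?_⟩⟩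
    · exact (Finset.erase_subset _ _).trans hp1.1.1
    · rw [Finset.card_erase_of_mem hp2, hp1.1.2]
      rfl
    · intro e he hsub
      exact hp1.2 e he (hsub.trans (Finset.erase_subset _ _))
    · intro e he hsub
      rw [Finset.insert_erase hp2] at hsub
      exact hp1.2 e he hsub
  · intro p hp
    rw [Finset.mem_sigma] at hp
    have hv := (MA_mem_ext.mp hp.2).2.1
    simp only [Finset.erase_insert hv]
  · intro p hp
    rw [Finset.mem_sigma] at hp
    simp only [Finset.insert_erase hp.2]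

end Pool.Agent.helper41.CL
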